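import Pool.Agent.Helper43.AX.St
import Pool.Agent.Helper41.DZ.CompSeries

/-! Assembly of project AX. -/

set_option autoImplicit false
set_option linter.unusedSimpArgs false

namespace Pool.Agent.Helper43.AX

open Pool.Agent.Helper41.DZ Pool.Agent.Helper43.GD

theorem finP_of_subsingleton (L : Type) [CommRing L] (x : Lˣ) (h : Subsingleton L) :
    FinP L x := by
  intro A _ s _ _
  have hE : ∀ a, s.E a = 1 := fun a => by rw [Subsingleton.elim a 0, s.E_zero]
  have hF : ∀ a, s.F a = 1 := fun a => by rw [Subsingleton.elim a 0, s.F_zero]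
  have : s.gp = ⊥ := by
    unfold Sys.gp
    rw [Subgroup.closure_eq_bot_iff]
    rintro g (⟨a, rfl⟩ | ⟨a, rfl⟩)
    · exact hE a
    · exact hF a
  rw [this]
  infer_instance

theorem hFin (hPR : StPR) (hCA : StCA) (hEX : StEX) (hSG : StSG) (hGR : StGR) (hFR : StFR)
    (hID : StID) (hKL : StKL) (hQT : StQT) (hPF : StPF) (hFI : StFI) (hIN : StIN) (hLB : StLB) :
    StFin := by
  intro p k hp h5 hk G _ a' b' t hrel hcl
  obtain ⟨a, b, l, hR, hcl'⟩ := hPR p k hp.pos hk G a' b' t hrel hcl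
  have hcomm := hCA G (p ^ 2) a t l hR.la hR.lt hR.S
  obtain ⟨L, _, x, E, e1, e2, e3, e4, e5, e6⟩ :=
    hEX G (p ^ 2) a t (Nat.one_le_pow _ _ hp.pos) hcomm hR.S
  obtain ⟨σ, hRd⟩ := hSG G (p ^ 2) a t l L x E hR.la hR.lt e1 e2 e3 e4 e5 e6
  have hC : Cx p p a b t l x E σ := ⟨hR, hRd⟩
  obtain ⟨I, hI, hIs, hIs'⟩ := hID p p G a b t l L x E σ hC
  have g1 := (hI _).2 (hGR p p G a b t l L x E σ hC)
  have g2 := (hI _).2 (hFR p p G a b t l L x E σ hC)
  obtain ⟨k1, k2⟩ := hKL p 1 p hp (pow_one p).symm L x σ I e6 hRd.sx hIs g1 g2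
  let x' : (L ⧸ I)ˣ := Units.map (Ideal.Quotient.mk I).toMonoidHom x
  have hx' : (x' : L ⧸ I) = Ideal.Quotient.mk I (x : L) := rfl
  have hfp : FinP (L ⧸ I) x' := by
    have f1 : ((p : ℕ) : L ⧸ I) = 0 := by
      have := Ideal.Quotient.eq_zero_iff_mem.2 k1
      rwa [map_natCast] at this
    have f2 : (x' : L ⧸ I) ^ (p ^ 2) = (x' : L ⧸ I) + 1 := by
      rw [hx', ← map_pow, e6, map_add, map_one]
    have f3 : (x' : L ⧸ I) ^ (p ^ p) = (x' : L ⧸ I) := by
      rw [hx', ← map_pow]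
      exact (Ideal.Quotient.eq).2 k2
    have f4 : Gn (x' : L ⧸ I) := by
      intro N h1 hN y
      obtain ⟨y, rfl⟩ := Ideal.Quotient.mk_surjective y
      have := e5 (N.comap (Ideal.Quotient.mk I).toAddMonoidHom) (by
        simpa using h1) (by
          intro z hz
          have := hN _ hz
          rw [AddSubgroup.mem_comap]
          simpa [hx'] using this) y
      simpa using this
    rcases hLB p hp h5 (L ⧸ I) x' f1 f2 f3 f4 with h | h
    · exact finP_of_subsingleton _ _ h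
    · exact hIN p (L ⧸ I) x' h
  have q := hQT p p G a b t l L x E σ hC hcl' I hI k1 k2 hfp
  have pf := hPF p 1 p hp (pow_one p).symm (by omega) G a b t l L x E σ hC hcl'
  exact hFI p p hp.pos G a b t l L x E σ hC hcl' pf q

section free

/-- generators -/
def ga : FreeGroup (Fin 3) := FreeGroup.of 0
def gb : FreeGroup (Fin 3) := FreeGroup.of 1
def gt : FreeGroup (Fin 3) := FreeGroup.of 2

/-- `a₀ = a' κ^(-k)` -/
def g0 (k : ℤ) : FreeGroup (Fin 3) := ga * ((ga * gb) ^ 3) ^ (-k)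

/-- the three relators -/
def r1 : FreeGroup (Fin 3) := (ga * gb * ga) * (gb * ga * gb)⁻¹

def r2 (p : ℕ) : FreeGroup (Fin 3) := ((ga * gb * ga)⁻¹ * gt * (ga * gb * ga)) * (gt ^ p)⁻¹⁻¹

def r3 (p : ℕ) (k : ℤ) : FreeGroup (Fin 3) :=
  cj (g0 k) gt ((p ^ 2 : ℕ) : ℤ) * (g0 k * cj (g0 k) gt 1)⁻¹

theorem map_cj {G H : Type} [Group G] [Group H] (f : G →* H) (a t : G) (i : ℤ) :
    f (cj a t i) = cj (f a) (f t) i := by
  unfold cj
  rw [map_mul, map_mul, map_zpow, map_zpow]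

/-- exponent sums of `t` and `a'` -/
def sumT : FreeGroup (Fin 3) →* Multiplicative ℤ :=
  FreeGroup.lift ![1, 1, Multiplicative.ofAdd 1]

def sumA : FreeGroup (Fin 3) →* Multiplicative ℤ :=
  FreeGroup.lift ![Multiplicative.ofAdd 1, 1, 1]

theorem sumT_a : sumT ga = 1 := by simp [sumT, ga]
theorem sumT_b : sumT gb = 1 := by simp [sumT, gb]
theorem sumT_t : sumT gt = Multiplicative.ofAdd 1 := by simp [sumT, gt]
theorem sumA_a : sumA ga = Multiplicative.ofAdd 1 := by simp [sumA, ga]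
theorem sumA_b : sumA gb = 1 := by simp [sumA, gb]
theorem sumA_t : sumA gt = 1 := by simp [sumA, gt]

theorem sumT_r1 : sumT r1 = 1 := by
  simp only [r1, map_mul, map_inv, sumT_a, sumT_b]
  simp

theorem sumT_g0 (k : ℤ) : sumT (g0 k) = 1 := by
  simp only [g0, map_mul, map_zpow, map_pow, sumT_a, sumT_b]
  simp

theorem sumT_r2 (p : ℕ) : sumT (r2 p) = Multiplicative.ofAdd ((p : ℤ) + 1) := by
  simp only [r2, map_mul, map_inv, map_pow, sumT_a, sumT_b, sumT_t]
  simp only [inv_one, one_mul, mul_one, inv_inv]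
  rw [← ofAdd_nsmul, ← ofAdd_add]
  congr 1
  simp [add_comm]

theorem sumT_r3 (p : ℕ) (k : ℤ) : sumT (r3 p k) = 1 := by
  simp only [r3, map_mul, map_inv, map_cj, sumT_g0, sumT_t, cj]
  simp

theorem sumA_r1 : sumA r1 = Multiplicative.ofAdd 1 := by
  simp only [r1, map_mul, map_inv, sumA_a, sumA_b]
  simp

theorem sumA_g0 (k : ℤ) : sumA (g0 k) = Multiplicative.ofAdd (1 - 3 * k) := by
  simp only [g0, map_mul, map_zpow, map_pow, sumA_a, sumA_b]
  simp only [mul_one]
  rw [← ofAdd_nsmul, ← ofAdd_zsmul, ← ofAdd_add]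
  refine congrArg Multiplicative.ofAdd ?_
  rw [nsmul_eq_mul, zsmul_eq_mul]
  push_cast
  ring

theorem sumA_r3 (p : ℕ) (k : ℤ) : sumA (r3 p k) = Multiplicative.ofAdd (3 * k - 1) := by
  have h1 : ∀ (A : Multiplicative ℤ) (i : ℤ), cj A 1 i = A := by
    intro A i
    simp [cj]
  rw [r3, map_mul, map_inv, map_mul, map_cj, map_cj, sumA_g0, sumA_t, h1, h1,
    ← ofAdd_add, ← ofAdd_neg, ← ofAdd_add]
  refine congrArg Multiplicative.ofAdd ?_
  ring

/-- the set of relators -/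
noncomputable def rels (p : ℕ) (k : ℤ) : Finset (FreeGroup (Fin 3)) := by
  classical exact {r1, r2 p, r3 p k}

theorem rels_card (p : ℕ) (k : ℤ) : (rels p k).card = 3 := by
  classical
  have h12 : r1 ≠ r2 p := by
    intro h
    have := congrArg sumT h
    rw [sumT_r1, sumT_r2] at this
    have h' : (0 : ℤ) = p + 1 := Multiplicative.ofAdd.injective this
    omega
  have h13 : r1 ≠ r3 p k := by
    intro h
    have := congrArg sumA h
    rw [sumA_r1, sumA_r3] at this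
    have h' : (1 : ℤ) = 3 * k - 1 := Multiplicative.ofAdd.injective this
    omega
  have h23 : r2 p ≠ r3 p k := by
    intro h
    have := congrArg sumT h
    rw [sumT_r2, sumT_r3] at this
    have h' : (p : ℤ) + 1 = 0 := Multiplicative.ofAdd.injective this
    omega
  rw [rels]
  convert Finset.card_eq_three.2 ⟨r1, r2 p, r3 p k, h12, h13, h23, rfl⟩

theorem mem_rels {p : ℕ} {k : ℤ} (w : FreeGroup (Fin 3)) :
    w ∈ (rels p k : Set (FreeGroup (Fin 3))) ↔ w = r1 ∨ w = r2 p ∨ w = r3 p k := by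
  classical
  simp [rels]

theorem rel_iff {G : Type} [Group G] (f : FreeGroup (Fin 3) →* G) (p : ℕ) (k : ℤ) :
    Rel3 p k (f ga) (f gb) (f gt) ↔ f r1 = 1 ∧ f (r2 p) = 1 ∧ f (r3 p k) = 1 := by
  unfold Rel3
  have e0 : f (g0 k) = f ga * ((f ga * f gb) ^ 3) ^ (-k) := by
    rw [g0, map_mul, map_zpow, map_pow, map_mul]
  have e1 : f r1 = 1 ↔ f ga * f gb * f ga = f gb * f ga * f gb := by
    rw [r1, map_mul, map_inv, mul_inv_eq_one]
    simp only [map_mul]
  have e2 : f (r2 p) = 1 ↔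
      (f ga * f gb * f ga)⁻¹ * f gt * (f ga * f gb * f ga) = (f gt ^ p)⁻¹ := by
    rw [r2, map_mul, map_inv, mul_inv_eq_one]
    simp only [map_mul, map_inv, map_pow]
  have e3 : f (r3 p k) = 1 ↔ cj (f ga * ((f ga * f gb) ^ 3) ^ (-k)) (f gt) ((p ^ 2 : ℕ) : ℤ) =
      (f ga * ((f ga * f gb) ^ 3) ^ (-k)) *
        cj (f ga * ((f ga * f gb) ^ 3) ^ (-k)) (f gt) 1 := by
    rw [r3, map_mul, map_inv, mul_inv_eq_one, map_mul, map_cj, map_cj, e0]
  rw [e1, e2, e3]

end free

theorem main (hFin : StFin) (hTG : StTG) (p : ℕ) [hF : Fact p.Prime] (h5 : 5 ≤ p) :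
    ∃ (G : Type) (_ : Group G), Finite G ∧ DeficiencyZero G ∧
      IsCompositionFactor (Matrix.ProjectiveSpecialLinearGroup (Fin 2) (GaloisField p p)) G := by
  obtain ⟨k, hk⟩ : ∃ k : ℤ, (6 * k - 1).natAbs = p := by
    have h2 : p % 2 = 1 := by
      rcases hF.out.eq_two_or_odd with h | h
      · omega
      · exact h
    have h3 : ¬ 3 ∣ p := by
      intro h
      have := (Nat.prime_dvd_prime_iff_eq Nat.prime_three hF.out).1 h
      omega
    rcases (by omega : p % 6 = 1 ∨ p % 6 = 5) with h | h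
    · exact ⟨-((p / 6 : ℕ) : ℤ), by omega⟩
    · exact ⟨((p / 6 : ℕ) : ℤ) + 1, by omega⟩
  let R := rels p k
  let G := PresentedGroup (R : Set (FreeGroup (Fin 3)))
  let π : FreeGroup (Fin 3) →* G := PresentedGroup.mk (R : Set (FreeGroup (Fin 3)))
  have hrel : Rel3 p k (π ga) (π gb) (π gt) := by
    rw [rel_iff]
    exact ⟨PresentedGroup.one_of_mem ((mem_rels _).2 (Or.inl rfl)),
      PresentedGroup.one_of_mem ((mem_rels _).2 (Or.inr (Or.inl rfl))),
      PresentedGroup.one_of_mem ((mem_rels _).2 (Or.inr (Or.inr rfl)))⟩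
  have hgen : Subgroup.closure {π ga, π gb, π gt} = (⊤ : Subgroup G) := by
    rw [← PresentedGroup.closure_range_of (R : Set (FreeGroup (Fin 3)))]
    congr 1
    ext g
    constructor
    · rintro (rfl | rfl | rfl)
      · exact ⟨0, rfl⟩
      · exact ⟨1, rfl⟩
      · exact ⟨2, rfl⟩
    · rintro ⟨b, rfl⟩
      fin_cases b
      · exact Or.inl rfl
      · exact Or.inr (Or.inl rfl)
      · exact Or.inr (Or.inr rfl)
  have hfin : Finite G := hFin p k hF.out h5 hk G (π ga) (π gb) (π gt) hrel hgen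
  have hdef : DeficiencyZero G :=
    ⟨Fin 3, inferInstance, R, by rw [rels_card]; rfl, ⟨MulEquiv.refl _⟩⟩
  obtain ⟨T, _, a, b, t, hrelT, hTr⟩ := hTG p k hF h5 hk
  let ρ : FreeGroup (Fin 3) →* T := FreeGroup.lift ![a, b, t]
  have ρa : ρ ga = a := by simp [ρ, ga]
  have ρb : ρ gb = b := by simp [ρ, gb]
  have ρt : ρ gt = t := by simp [ρ, gt]
  have hρ := (rel_iff ρ p k).1 (by rw [ρa, ρb, ρt]; exact hrelT)
  have hrels : ∀ w' ∈ (R : Set (FreeGroup (Fin 3))), FreeGroup.lift ![a, b, t] w' = 1 := by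
    intro w' hw'
    rcases (mem_rels w').1 hw' with rfl | rfl | rfl
    · exact hρ.1
    · exact hρ.2.1
    · exact hρ.2.2
  let φ : G →* T := PresentedGroup.toGroup hrels
  have hφ : ∀ i : Fin 3, φ (PresentedGroup.of i) = ![a, b, t] i := fun i =>
    PresentedGroup.toGroup.of hrels (x := i)
  obtain ⟨L, hL, f', hf'⟩ := hTr G φ (π ga) (π gb) (π gt) (hφ 0) (hφ 1) (hφ 2) hgen
  have hcard : 4 ≤ Nat.card (GaloisField p p) := by
    rw [GaloisField.card p p (by omega)]
    calc 4 ≤ p := by omega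
      _ = p ^ 1 := (pow_one p).symm
      _ ≤ p ^ p := Nat.pow_le_pow_right (by omega) (by omega)
  exact ⟨G, inferInstance, hfin, hdef,
    factor_of_section _ (Matrix.ProjectiveSpecialLinearGroup.rank_two_simple hcard) _ G rfl L hL f'
      hf'⟩

end Pool.Agent.Helper43.AX
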