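import Pool.Agent.Helper43.GD.St

/-!
PROJECT AX (MP_b3ce06_al, fourth hand-in; Q1: which simple groups are composition factors of finite
groups of deficiency zero).

THEOREM.  For every prime `p ≥ 5` the group `PSL(2, p^p)` is a composition factor of a finite group
of deficiency zero, namely of `⟨a', b', t | a'b'a' = b'a'b', w'⁻¹ t w' = t^(-p), a_(p²) = a_0 a_1⟩`,
`w' = a'b'a'`, `κ = (a'b')³`, `a_0 = a' κ^(-k)`, `6k-1 = ±p`, `a_i = t⁻ⁱ a_0 tⁱ`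
(Artin–Schreier: in the target `x^(p²) = x + 1`).

Notation.  `Sys`, `Fr`, `Gn`, `FinP`, `IsHat`, `cj` (`cj a t i = t⁻ⁱ a tⁱ`) and the modules
`StRR StST StP1 StP2 StP3 StCMB StRL StCEL StHAT StCT` are those of project GD
(`Pool/Agent/Helper43/GD`, all PROVED, see `Pool/Agent/Helper43/GD/All.lean`).

All modules are INDEPENDENT (the statements they use are hypotheses: prove
`theorem hXX (h1 : StYY) ... : StXX`).  In a module file: `import Pool.Agent.Helper43.AX.St`.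
The group part is written for a power `q` of `p` (we use `q = p`).
-/

set_option autoImplicit false

namespace Pool.Agent.Helper43.AX

open Pool.Agent.Helper43.GD

/-! ### Group part -/

/-- The relations of the group (`l = κ`, `v = aba`). -/
structure Rel (p q : ℕ) {G : Type} [Group G] (a b t l : G) : Prop where
  braid : a * b * a = b * a * b
  la : l * a = a * l
  lb : l * b = b * l
  lt : l⁻¹ * t * l = t ^ (q ^ 2)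
  vt : (a * b * a)⁻¹ * t * (a * b * a) = (t ^ (q ^ p))⁻¹
  vv : (a * b * a) * (a * b * a) = l ^ p
  S : cj a t ((q ^ 2 : ℕ) : ℤ) = a * cj a t 1

/-- MODULE CA (70 lines).  All `a_i = cj a t i` commute.
PROOF.  Shift of the hypothesis: `a_(i+m) = a_i a_(i+1)` (conjugate by `t^i`).  `l⁻¹ a_i l =
a_(m i)` (`l⁻¹ t^i l = t^(m i)`), so (conjugate `a_m = a_0 a_1` by `l`, `l` commutes with `a`)
`a_(m²) = a_0 a_m = a_0 a_0 a_1`, and shifted `a_(m²+i) = a_i a_i a_(i+1)`.  Compute `a_(m²+m)` in two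
ways: `a_m a_m a_(m+1) = (a_0 a_1)(a_0 a_1)(a_1 a_2)` and `a_(m²) a_(m²+1) = (a_0 a_0 a_1)(a_1 a_1 a_2)`.
So `a_1 a_0 = a_0 a_1`.  Let `D = {d : ℤ | a_0 a_d = a_d a_0}`; `d ∈ D → -d ∈ D`, and `a_i, a_j` commute
iff `j - i ∈ D`.  If two of `i, i+1, i+m` are in `D` then the third (`a_(i+m) = a_i a_(i+1)`).
`0, 1, -1 ∈ D`; `i = 0`: `m ∈ D`; `i = -m-1`: `-m, -1 ∈ D` so `-m-1 ∈ D`, `m+1 ∈ D`.  Induction on
`n ≥ 1`: `n ∈ D`, `m+n ∈ D`: pattern `{n, n+1, m+n}` gives `n+1 ∈ D`; pattern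
`{-m-n-1, -m-n, -n-1}` gives `-m-n-1 ∈ D`, `m+n+1 ∈ D`. -/
def StCA : Prop :=
  ∀ (G : Type) [Group G] (m : ℕ) (a t l : G), l * a = a * l → l⁻¹ * t * l = t ^ m →
    cj a t (m : ℤ) = a * cj a t 1 → ∀ i j : ℤ, cj a t i * cj a t j = cj a t j * cj a t i

/-- The ring data: `E : L ≅ A = ⟨a_i⟩`, `t` acts as `x`, `l` as the ring automorphism `σ`,
`σ x = x + 1 = x^m`. -/
structure Rd (m : ℕ) {G : Type} [Group G] (a t l : G) {L : Type} [CommRing L] (x : Lˣ) (E : L → G)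
    (σ : L ≃+* L) : Prop where
  add : ∀ c d, E (c + d) = E c * E d
  inj : Function.Injective E
  one : E 1 = a
  tE : ∀ c, t⁻¹ * E c * t = E ((x : L) * c)
  lE : ∀ c, l⁻¹ * E c * l = E (σ c)
  gn : Gn (x : L)
  xm : (x : L) ^ m = (x : L) + 1
  sx : σ (x : L) = (x : L) + 1

/-- MODULE EX (130 lines; see `Pool/Agent/Helper66/GD/M_EX.lean` for a similar module).
PROOF.  `V = Subgroup.closure (range (cj a t))` is commutative, `v ↦ t⁻¹ v t` maps `V` onto `V`: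
additive automorphism `T` of `Additive V`, `T^m v = v + T v` (check on the `a_i`: `a_(i+m) = a_i
a_(i+1)`).  `L` = subring of `AddMonoid.End (Additive V)` generated by `T` (`Algebra.adjoin ℤ {T}` or
`Subring.closure {T}`, commutative), `x = T` (a unit: `T (T^(m-1) - 1) = 1`, here `1 ≤ m`).
`E c = c(a)` as element of `G`.  Injective: if `c(a) = 0` then `c(T^i a) = T^i c(a) = 0` for all
`i : ℤ`, so `c = 0` on `V`.  `Gn x`: `L` is the additive span of the `T^i`, `i ≥ 0`. -/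
def StEX : Prop :=
  ∀ (G : Type) [Group G] (m : ℕ) (a t : G), 1 ≤ m →
    (∀ i j : ℤ, cj a t i * cj a t j = cj a t j * cj a t i) → cj a t (m : ℤ) = a * cj a t 1 →
    ∃ (L : Type) (_ : CommRing L) (x : Lˣ) (E : L → G),
      (∀ c d, E (c + d) = E c * E d) ∧ Function.Injective E ∧ E 1 = a ∧
      (∀ c, t⁻¹ * E c * t = E ((x : L) * c)) ∧ Gn (x : L) ∧ (x : L) ^ m = (x : L) + 1

/-- MODULE SG (100 lines).
PROOF.  For every `c` there is a unique `d =: σ c` with `l⁻¹ E(c) l = E(d)`: the set of `c` for which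
`d` exists is an additive subgroup, contains `1` (`l` commutes with `a = E 1`) and is stable under `x`:
`l⁻¹ E(xc) l = l⁻¹ t⁻¹ E(c) t l = t^(-m) (l⁻¹ E(c) l) t^m = E(x^m d)`; use `Gn`.  So `σ` is additive,
`σ 1 = 1`, `σ(xc) = x^m σ(c) = (x+1) σ(c)`, `σ x = x+1`.  `σ(cd) = σ(c)σ(d)`: for fixed `d` the set of
such `c` is additive, contains `1`, stable under `x`.  Injective since `E` is.  Surjective: the image
is an additive subgroup, contains `1`, stable under `x+1` (`σ(xc) = (x+1)σ(c)`), so under `x`. -/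
def StSG : Prop :=
  ∀ (G : Type) [Group G] (m : ℕ) (a t l : G) (L : Type) [CommRing L] (x : Lˣ) (E : L → G),
    l * a = a * l → l⁻¹ * t * l = t ^ m →
    (∀ c d, E (c + d) = E c * E d) → Function.Injective E → E 1 = a →
    (∀ c, t⁻¹ * E c * t = E ((x : L) * c)) → Gn (x : L) → (x : L) ^ m = (x : L) + 1 →
    ∃ σ : L ≃+* L, Rd m a t l x E σ

/-- The context of the group part. -/
structure Cx (p q : ℕ) {G : Type} [Group G] (a b t l : G) {L : Type} [CommRing L] (x : Lˣ)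
    (E : L → G) (σ : L ≃+* L) : Prop where
  rel : Rel p q a b t l
  rd : Rd (q ^ 2) a t l x E σ

/-- `F1 c = v E(c) v⁻¹`, `v = aba` -/
def F1 {G : Type} [Group G] {L : Type} (a b : G) (E : L → G) (c : L) : G :=
  (a * b * a) * E c * (a * b * a)⁻¹

/-- The subgroup `P = A ⟨t, l⟩`. -/
def P {G : Type} [Group G] {L : Type} (t l : G) (E : L → G) : Subgroup G :=
  Subgroup.closure (Set.range E ∪ {t, l})

/-- `c ∈ K₀`: `E(c)` fixes the coset `v P`. -/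
def InK {G : Type} [Group G] {L : Type} (a b t l : G) (E : L → G) (c : L) : Prop :=
  (a * b * a)⁻¹ * E c * (a * b * a) ∈ P t l E

/-- MODULE XP (40 lines, ring).  PROOF.  Induction on `j` with `m = q²`: apply the ring
automorphism `σ^j` to `x^m = x + 1`: `(x+j)^m = x+j+1`. -/
def StXP : Prop :=
  ∀ (m : ℕ) (L : Type) [CommRing L] (x : L) (σ : L ≃+* L), x ^ m = x + 1 → σ x = x + 1 →
    ∀ j : ℕ, x ^ (m ^ j) = x + (j : L) ∧ (σ^[j]) x = x + (j : L) ∧ (σ.symm^[j]) x = x - (j : L) ∧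
      (x + (j : L)) ^ m = x + (j : L) + 1

/-- MODULE VC (90 lines).  With `v = aba`, `N = q^p`:
PROOF.  `v⁻¹ a v = b`, `v⁻¹ b v = a` (braid relation), so `v a v⁻¹ = b`, `v b v⁻¹ = a`.
(1) `t⁻¹ F1(c) t = v (v⁻¹t⁻¹v) E(c) (v⁻¹tv) v⁻¹ = v t^N E(c) t^(-N) v⁻¹ = F1(x^(-N) c)`.
(2) `v F1(c) v⁻¹ = v² E(c) v⁻² = l^p E(c) l^(-p) = E(σ^(-p) c)`.
(3) `b = F1(1)`, so by (1) `cj b t i = t⁻ⁱ b tⁱ = F1(x^(-N i))`.
(4) `v⁻¹ a_i v = (v⁻¹t⁻ⁱv) b (v⁻¹tⁱv) = t^(Ni) b t^(-Ni) = cj b t (-N i)`.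
(5) the `cj b t i` commute: they are values of `F1` (`E` is additive). -/
def StVC : Prop :=
  ∀ (p q : ℕ) (G : Type) [Group G] (a b t l : G) (L : Type) [CommRing L] (x : Lˣ) (E : L → G)
    (σ : L ≃+* L), Cx p q a b t l x E σ →
    (∀ c, t⁻¹ * F1 a b E c * t = F1 a b E (((x⁻¹ ^ (q ^ p) : Lˣ) : L) * c)) ∧
    (∀ c, (a * b * a) * F1 a b E c * (a * b * a)⁻¹ = E ((σ.symm^[p]) c)) ∧
    (∀ i : ℤ, cj b t i = F1 a b E (((x ^ (-((q ^ p : ℕ) : ℤ) * i) : Lˣ) : L))) ∧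
    (∀ i : ℤ, (a * b * a)⁻¹ * E (((x ^ i : Lˣ) : L)) * (a * b * a) =
      cj b t (-((q ^ p : ℕ) : ℤ) * i)) ∧
    (∀ i j : ℤ, cj b t i * cj b t j = cj b t j * cj b t i)

/-- MODULE PT (120 lines, uses VC).  Cosets of `P` (`g ~ h` means `g⁻¹ h ∈ P`), `v = aba`, `N = q^p`.
PROOF.  `t, l, E(c) ∈ P`; `v² = l^p ∈ P`, so `v⁻¹ ~ v`; `t^j v = v (v⁻¹ t^j v) = v t^(-Nj) ~ v`;
`l v = v l ~ v` (`l` commutes with `a, b`).  `t^i E(c) t^(-i) = E(x^(-i) c)`,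
`a_i = cj a t i = E(x^i)`.  `v_i := t⁻ⁱ v tⁱ = a_i b_i a_i` (`b_i = cj b t i`) and
`v_i = v (v⁻¹t⁻ⁱv) tⁱ = v t^((N+1)i)`.
(a) `b_i = a_i⁻¹ v_i a_i⁻¹ = E(-x^i) v t^((N+1)i) E(-x^i) ~ E(-x^i) v`.
(b) `b_i⁻¹ = a_i v_i⁻¹ a_i = E(x^i) t^(-(N+1)i) v⁻¹ E(x^i) ~ E(x^i) t^(-(N+1)i) v⁻¹ ~ E(x^i) v`
(`t^j v⁻¹ = t^j v l^(-p) = v t^(-Nj) l^(-p)`).
(c) `t^j E(c) v = E(x^(-j)c) t^j v ~ E(x^(-j) c) v`;  `l^p E(c) v = E(σ^(-p)c) l^p v ~ E(σ^(-p) c) v`.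
(d) `v⁻¹ E(x^i) v = b_(-Ni)` (VC) `~ E(-x^(-Ni)) v` by (a), and
`v⁻¹ E(-x^i) v = b_(-Ni)⁻¹ ~ E(x^(-Ni)) v` by (b). -/
def StPT : Prop :=
  ∀ (p q : ℕ) (G : Type) [Group G] (a b t l : G) (L : Type) [CommRing L] (x : Lˣ) (E : L → G)
    (σ : L ≃+* L), Cx p q a b t l x E σ →
    (∀ i : ℤ, (cj b t i)⁻¹ * (E (-((x ^ i : Lˣ) : L)) * (a * b * a)) ∈ P t l E) ∧
    (∀ i : ℤ, (cj b t i) * (E ((x ^ i : Lˣ) : L) * (a * b * a)) ∈ P t l E) ∧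
    (∀ (j : ℤ) (c : L), (t ^ j * (E c * (a * b * a)))⁻¹ *
      (E (((x ^ (-j) : Lˣ) : L) * c) * (a * b * a)) ∈ P t l E) ∧
    (∀ c : L, (l ^ p * (E c * (a * b * a)))⁻¹ * (E ((σ.symm^[p]) c) * (a * b * a)) ∈ P t l E) ∧
    (∀ i : ℤ, ((a * b * a)⁻¹ * (E ((x ^ i : Lˣ) : L) * (a * b * a)))⁻¹ *
      (E (-((x ^ (-((q ^ p : ℕ) : ℤ) * i) : Lˣ) : L)) * (a * b * a)) ∈ P t l E) ∧
    (∀ i : ℤ, ((a * b * a)⁻¹ * (E (-((x ^ i : Lˣ) : L)) * (a * b * a)))⁻¹ *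
      (E ((x ^ (-((q ^ p : ℕ) : ℤ) * i) : Lˣ) : L) * (a * b * a)) ∈ P t l E)

/-- MODULE GR (120 lines, uses PT, VC).  KILL RELATION 1.  `v = aba`, `N = q^p`, `m = q²`.
PROOF.  Work in the left cosets `G ⧸ P` (or with `~`, which is an equivalence relation stable under
left multiplication).  `b_0 = b`, `b⁻¹ = a v⁻¹ a` (`v = aba`).
`b_0⁻¹ b_1⁻¹ P = b_0⁻¹ E(x) v P` (PT b) `= E(1) v⁻¹ E(1+x) v P = E(1) v⁻¹ E(x^m) v P =
E(1) E(-x^(-Nm)) v P` (PT d).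
`b_1⁻¹ b_0⁻¹ P = b_1⁻¹ E(1) v P = t⁻¹ b_0⁻¹ t E(1) v P = t⁻¹ b_0⁻¹ E(x⁻¹) v P` (PT c)
`= t⁻¹ E(1) v⁻¹ E(1 + x⁻¹) v P`, and `1 + x⁻¹ = x^(m-1)` (exponent in ℤ), `= t⁻¹ E(1 - x^(-N(m-1))) v P
= E(x - x^(1-N(m-1))) v P`.
The `b_i` commute (VC), so `E(c₁) v P = E(c₂) v P`, i.e. `v⁻¹ E(c₁ - c₂) v ∈ P` for
`c₁ - c₂ = 1 - x^(-Nm) - x + x^(1-N(m-1))`. -/
def StGR : Prop :=
  ∀ (p q : ℕ) (G : Type) [Group G] (a b t l : G) (L : Type) [CommRing L] (x : Lˣ) (E : L → G)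
    (σ : L ≃+* L), Cx p q a b t l x E σ →
    InK a b t l E (1 - ((x ^ (-((q ^ p : ℕ) : ℤ) * ((q ^ 2 : ℕ) : ℤ)) : Lˣ) : L) - (x : L) +
      ((x ^ (1 - ((q ^ p : ℕ) : ℤ) * (((q ^ 2 : ℕ) : ℤ) - 1)) : Lˣ) : L))

/-- MODULE FR (150 lines, uses PT, VC, XP).  KILL RELATION 2.  `v = aba`, `N = q^p`, `m = q²`; note
`N² = m^p`, so `x^(N²) = x + p` (XP).
PROOF.  Cosets of `P`, `b_0 = a⁻¹ v a⁻¹`, and `v = v⁻¹ v² = v⁻¹ l^p`.
`b_0 b_(N²) P = b_0 E(-x^(N²)) v P` (PT a) `= E(-1) v E(-1-x^(N²)) v P`; `x^(N²) + 1 = x+p+1 =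
x^(m N²)` (XP: `(x+p)^m = x+p+1`); `v E(-x^(mN²)) v P = v⁻¹ l^p E(-x^(mN²)) v P =
v⁻¹ E(-σ^(-p)(x+p+1)) v P = v⁻¹ E(-(x+1)) v P = v⁻¹ E(-x^m) v P = E(x^(-Nm)) v P` (PT c, d).  So it is
`E(-1 + x^(-Nm)) v P`.
`b_(N²) b_0 P = b_(N²) E(-1) v P = t^(-N²) b_0 t^(N²) E(-1) v P = t^(-N²) b_0 E(-x^(-N²)) v P =
t^(-N²) E(-1) v E(-1-x^(-N²)) v P`; `1 + x^(-N²) = x^((m-1)N²)`; `v E(-x^((m-1)N²)) v P =
v⁻¹ E(-σ^(-p)((x+p+1)(x+p)⁻¹)) v P = v⁻¹ E(-(x+1)x⁻¹) v P = v⁻¹ E(-x^(m-1)) v P =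
E(x^(-N(m-1))) v P`.  So it is `t^(-N²) E(-1 + x^(-N(m-1))) v P =
E(-x^(N²) + x^(N² - N(m-1))) v P`.
The `b_i` commute, so `-1 + x^(-Nm) + x^(N²) - x^(N²-N(m-1)) ∈ K₀`; insert `x^(N²) = x + p`. -/
def StFR : Prop :=
  ∀ (p q : ℕ) (G : Type) [Group G] (a b t l : G) (L : Type) [CommRing L] (x : Lˣ) (E : L → G)
    (σ : L ≃+* L), Cx p q a b t l x E σ →
    InK a b t l E (-1 + ((x ^ (-((q ^ p : ℕ) : ℤ) * ((q ^ 2 : ℕ) : ℤ)) : Lˣ) : L) +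
      ((x : L) + (p : L)) -
      ((x : L) + (p : L)) * ((x ^ (-((q ^ p : ℕ) : ℤ) * (((q ^ 2 : ℕ) : ℤ) - 1)) : Lˣ) : L))

/-- MODULE ID (80 lines).  `K₀` is an ideal stable under `σ` and `σ⁻¹`.
PROOF.  Additive subgroup: `E` is additive, `P` a subgroup.  `v⁻¹ E(xc) v = v⁻¹ t⁻¹ E(c) t v =
(v⁻¹t⁻¹v)(v⁻¹E(c)v)(v⁻¹tv) = t^N (v⁻¹E(c)v) t^(-N) ∈ P`.  So `{y : y K₀ ⊆ K₀}` is additive, contains
`1`, stable under `x`: everything by `Gn`.  `v⁻¹ E(σc) v = l⁻¹ (v⁻¹ E(c) v) l` (`l` commutes with `v`),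
and the same with `l` for `σ⁻¹`. -/
def StID : Prop :=
  ∀ (p q : ℕ) (G : Type) [Group G] (a b t l : G) (L : Type) [CommRing L] (x : Lˣ) (E : L → G)
    (σ : L ≃+* L), Cx p q a b t l x E σ →
    ∃ I : Ideal L, (∀ c, c ∈ I ↔ InK a b t l E c) ∧ (∀ c ∈ I, σ c ∈ I) ∧ (∀ c ∈ I, σ.symm c ∈ I)

/-- MODULE KL (90 lines, ring only, uses XP).  `m = q²`, `N = q^p`, `q = p^s`, `p` prime.
PROOF.  Multiply both elements by the unit `x^(Nm)`; with `g₀ = x^N`, `g₁ = x^(Nm) = (x+1)^N`: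
(i) `(1-x) g₁ - 1 + x g₀ ∈ I`  (`x^(1-N(m-1)) x^(Nm) = x^(1+N)`),
(ii) `-g₁ + 1 + (x+p) g₁ - (x+p) g₀ ∈ I`  (`x^(-N(m-1)) x^(Nm) = x^N`).
Sum: `p (g₁ - g₀) ∈ I`.  `p` times (i) minus `(1-x) p (g₁ - g₀)`: `p (g₀ - 1) ∈ I`.  `x^(N²) - 1 =
g₀^N - 1` is a multiple of `g₀ - 1`, and `x^(N²) = x^(m^p) = x+p` (XP), so `p (x+p-1) ∈ I`; apply `σ`:
`p (x+p) ∈ I`; so `p ∈ I`.  Modulo `I` we have characteristic `p` and `N` is a power of `p`, so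
`g₁ = (x+1)^N = g₀ + 1`, and (i) becomes `g₀ - x`: `(1-x)(g₀+1) - 1 + x g₀ = g₀ - x`. -/
def StKL : Prop :=
  ∀ (p s q : ℕ), p.Prime → q = p ^ s → ∀ (L : Type) [CommRing L] (x : Lˣ) (σ : L ≃+* L)
    (I : Ideal L), (x : L) ^ (q ^ 2) = (x : L) + 1 → σ (x : L) = (x : L) + 1 →
    (∀ c ∈ I, σ c ∈ I) →
    (1 - ((x ^ (-((q ^ p : ℕ) : ℤ) * ((q ^ 2 : ℕ) : ℤ)) : Lˣ) : L) - (x : L) +
      ((x ^ (1 - ((q ^ p : ℕ) : ℤ) * (((q ^ 2 : ℕ) : ℤ) - 1)) : Lˣ) : L)) ∈ I →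
    (-1 + ((x ^ (-((q ^ p : ℕ) : ℤ) * ((q ^ 2 : ℕ) : ℤ)) : Lˣ) : L) +
      ((x : L) + (p : L)) -
      ((x : L) + (p : L)) * ((x ^ (-((q ^ p : ℕ) : ℤ) * (((q ^ 2 : ℕ) : ℤ) - 1)) : Lˣ) : L)) ∈ I →
    (p : L) ∈ I ∧ (x : L) ^ (q ^ p) - (x : L) ∈ I

/-- MODULE CE (130 lines, uses VC, ID, XP).  For `c ∈ K₀`, `E(c)` commutes with all `F1(d)`.
PROOF.  (1) For every `π ∈ P` there are a unit `u` and `i : ℤ` with `π⁻¹ E(d) π = E(u σ^i(d))` for all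
`d` (closure induction: `E(c)`: `u = 1, i = 0`; `t`: `u = x`; `l`: `u = 1, i = 1`; products, inverses).
(2) If `c ∈ K₀` then `E(c) = v π v⁻¹` with `π ∈ P`, so `E(c)⁻¹ F1(d) E(c) = v π⁻¹ E(d) π v⁻¹ =
F1(u σ^i(d))` for some unit `u` and some `i`.
(3) For `c ∈ K₀` with `E(c)⁻¹ F1(d) E(c) = F1(u σ^i(d))`: `E(xc) = t⁻¹ E(c) t` and
`t F1(d) t⁻¹ = F1(x^N d)` (VC) give `E(xc)⁻¹ F1(d) E(xc) = F1(w u σ^i(d))` with
`w = σ^i(x)^N x^(-N)` a unit; hence (`E((x-1)c) = E(xc) E(c)⁻¹`, `E(c) F1(u σ^i d) E(c)⁻¹ = F1(d)`)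
`E((x-1)c)⁻¹ F1(d) E((x-1)c) = E(c) F1(w u σ^i(d)) E(c)⁻¹ = F1(w' d)` with `w' = σ^(-i)(w)`.
(4) `x - 1 = σ⁻¹(x)` is a unit, so every element of `K₀` is `(x-1)c` with `c ∈ K₀` (ideal); so for
all `c ∈ K₀` we can take `i = 0` in (2), then `w = 1` in (3), `E((x-1)c)` commutes with `F1(d)`, and again
every element of `K₀` is of the form `(x-1)c`. -/
def StCE : Prop :=
  ∀ (p q : ℕ) (G : Type) [Group G] (a b t l : G) (L : Type) [CommRing L] (x : Lˣ) (E : L → G)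
    (σ : L ≃+* L), Cx p q a b t l x E σ → ∀ c, InK a b t l E c → ∀ d : L,
    E c * F1 a b E d = F1 a b E d * E c

/-- `H = ⟨A, B⟩` -/
def Hs {G : Type} [Group G] {L : Type} (a b : G) (E : L → G) : Subgroup G :=
  Subgroup.closure (Set.range E ∪ Set.range (F1 a b E))

/-- MODULE HN (70 lines, uses VC).  `H` is normal, `a, b ∈ H`, `t^(N+1) ∈ H`.
PROOF.  `a = E 1`, `b = F1 1`, so `a, b, v ∈ H`.  `t⁻¹E(c)t = E(xc)`, `tE(c)t⁻¹ = E(x⁻¹c)`,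
`t⁻¹F1(c)t = F1(x^(-N)c)`, `tF1(c)t⁻¹ = F1(x^N c)`, `l⁻¹E(c)l = E(σc)`, `l⁻¹F1(c)l = F1(σ c)`
(`l` commutes with `v`) and the inverses: `t, l` normalize `H`; `a, b ∈ H`; the closure of
`{a,b,t,l}` is everything.  `t⁻¹ v t = v (v⁻¹t⁻¹v) t = v t^(N+1)`, and `t⁻¹vt ∈ H`. -/
def StHN : Prop :=
  ∀ (p q : ℕ) (G : Type) [Group G] (a b t l : G) (L : Type) [CommRing L] (x : Lˣ) (E : L → G)
    (σ : L ≃+* L), Cx p q a b t l x E σ → Subgroup.closure {a, b, t, l} = (⊤ : Subgroup G) →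
    (Hs a b E).Normal ∧ a ∈ Hs a b E ∧ b ∈ Hs a b E ∧ t ^ (q ^ p + 1) ∈ Hs a b E

/-- MODULE QT (150 lines, uses VC, CE, HN).  `H / Z(H)` is finite if `FinP (L ⧸ K₀) x̄`.
PROOF.  `Z` = image of `center H` in `G`: the subgroup of elements of `H` commuting with all
elements of `H`; normal in `G` (`H` is normal).  `π : G → G ⧸ Z`.  For `c ∈ K₀`: `E(c) ∈ Z` (it commutes
with all `E(d)` and, by CE, all `F1(d)`), and `F1(c) = v E(c) v⁻¹ ∈ Z`.  So `E'(c mod K₀) = π(E(c))`,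
`F'(c mod K₀) = π(F1(-c))` are well defined and additive: a system `s'` over `L ⧸ K₀` in `G ⧸ Z`.
`s'.om 1 = π(a b a) = π(v)` (`F'(-1) = π(F1(1)) = π(b)`).  Weyl `1`: `v E(c) v⁻¹ = F1(c)`;
`v F1(-c) v⁻¹ = E(-σ^(-p)c)` and `σ^(-p) c - c ∈ K₀` for all `c` (additive, true for `1`; if true for
`c` then `σ^(-p)(xc) = (x-p) σ^(-p)(c) ≡ x c` since `p ∈ K₀`; use `Gn`).  `π(t)⁻¹` is a torus element for
`x̄`: `t⁻¹E(c)t = E(xc)`, `t⁻¹F1(c)t = F1(x^(-N)c)` and `x^(-N) ≡ x⁻¹` as `x^N - x ∈ K₀`.  So `x̄` is a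
Weyl unit by `Sys.weyl_tor` (with `u = 1`).  By `FinP` `s'.gp` is finite; it is the image of `H`,
isomorphic to `H ⧸ center H`. -/
def StQT : Prop :=
  ∀ (p q : ℕ) (G : Type) [Group G] (a b t l : G) (L : Type) [CommRing L] (x : Lˣ) (E : L → G)
    (σ : L ≃+* L), Cx p q a b t l x E σ → Subgroup.closure {a, b, t, l} = (⊤ : Subgroup G) →
    ∀ I : Ideal L, (∀ c, c ∈ I ↔ InK a b t l E c) → (p : L) ∈ I →
      (x : L) ^ (q ^ p) - (x : L) ∈ I →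
      FinP (L ⧸ I) (Units.map (Ideal.Quotient.mk I).toMonoidHom x) →
      Finite (Hs a b E ⧸ Subgroup.center (Hs a b E))

/-- MODULE PF (110 lines, uses VC, HN, XP).  `H` is perfect.
PROOF.  Let `D` = image of `commutator H` in `G`, i.e. `⁅H, H⁆`, normal in `G`.
`M = {c : L | E(c) ∈ ⁅H,H⁆}`: additive, stable under `x` (`t` normalizes), so an ideal (`Gn`), stable
under `σ` (`l` normalizes).  Modulo `⁅H,H⁆` conjugation by elements of `H` is trivial.  `v ∈ H`: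
`F1(c) = v E(c) v⁻¹`, so `F1(c) E(c)⁻¹ ∈ ⁅H,H⁆`.  `v₁ = t⁻¹ v t ∈ H`: `v₁ E(c) v₁⁻¹ =
t⁻¹ v E(x⁻¹c) v⁻¹ t = t⁻¹ F1(x⁻¹c) t = F1(x^(-N-1) c)`.  So `c - x^(-N-1) c ∈ M`, hence
`(x^(N+1) - 1) c ∈ M` for all `c`.  In the ring `L ⧸ M`: `x^(N+1) = 1`, `N+1 ∣ N²-1`, so
`x^(N²) = x`; but `x^(N²) = x^(m^p) = x + p` (XP), so `p = 0`; characteristic `p`, `N` a power of
`p`: apply `σ` to `x^N x = 1`: `(x^N + 1)(x + 1) = 1`, so `x^N + x + 1 = 0`, times `x`: `1 + x² + x = 0`,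
so `x³ = 1`; `m = q²` with `3 ∤ q`, so `m ≡ 1 (3)`, `x^m = x`, but `x^m = x+1`: `1 = 0`.  So `M = L`,
and all `E(c)`, `F1(c)` are in `⁅H,H⁆`. -/
def StPF : Prop :=
  ∀ (p s q : ℕ), p.Prime → q = p ^ s → p ≠ 3 → ∀ (G : Type) [Group G] (a b t l : G) (L : Type)
    [CommRing L] (x : Lˣ) (E : L → G) (σ : L ≃+* L), Cx p q a b t l x E σ →
    Subgroup.closure {a, b, t, l} = (⊤ : Subgroup G) → commutator (Hs a b E) = ⊤

/-- MODULE FI (60 lines, uses HN).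
PROOF.  `H` is finite (`Pool.Agent.Helper60.DZ2.Red_schur` in `Pool/Agent/Helper60/DZ2/M_Red.lean`).
`Q = G ⧸ H` is generated by the images `T, K` of `t, l`; `T^(N+1) = 1`, `K^p = 1` (`l^p = v² ∈ H`),
`K⁻¹ T K = T^m`, so `⟨T⟩` is finite and normalized by `K` (finite order), `Q = ⟨T⟩⟨K⟩` is finite.
So `G` is finite. -/
def StFI : Prop :=
  ∀ (p q : ℕ), 0 < p → ∀ (G : Type) [Group G] (a b t l : G) (L : Type) [CommRing L] (x : Lˣ)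
    (E : L → G) (σ : L ≃+* L), Cx p q a b t l x E σ →
    Subgroup.closure {a, b, t, l} = (⊤ : Subgroup G) → commutator (Hs a b E) = ⊤ →
    Finite (Hs a b E ⧸ Subgroup.center (Hs a b E)) → Finite G

/-- The three relations of the presentation (`r = p²`; `κ = (a'b')³`, `a₀ = a' κ^(-k)`). -/
def Rel3 {G : Type} [Group G] (p : ℕ) (k : ℤ) (a' b' t : G) : Prop :=
  a' * b' * a' = b' * a' * b' ∧
  (a' * b' * a')⁻¹ * t * (a' * b' * a') = (t ^ p)⁻¹ ∧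
  cj (a' * ((a' * b') ^ 3) ^ (-k)) t ((p ^ 2 : ℕ) : ℤ) =
    (a' * ((a' * b') ^ 3) ^ (-k)) * cj (a' * ((a' * b') ^ 3) ^ (-k)) t 1

/-- MODULE PR (150 lines, uses CA).  From the presentation to `Rel p p`.
PROOF.  `w' = a'b'a'`, `κ = (a'b')³ = w'²` commutes with `a', b'` (braid relation).  `κ⁻¹ t κ =
w'⁻¹(w'⁻¹tw')w' = w'⁻¹ t^(-p) w' = t^(p²)`; `κ^(-j) t κ^j = t^(p^(2j))` for `j ≥ 0`.  `a₀ = a'κ^(-k)`,
`b₀ = b'κ^(-k)`; `a₀b₀a₀ = w' κ^(-3k) = b₀a₀b₀`.  By CA (`m = p²`, `l = κ`) all `cj a₀ t i` commute.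
Case `6k-1 = -p` (`k ≤ 0`): `a = a₀, b = b₀, l = κ`: `v = w'κ^(-3k)`; `v⁻¹tv = κ^(3k)(w'⁻¹tw')κ^(-3k) =
κ^(3k) t^(-p) κ^(-3k) = t^(-p·p^(-6k)) = t^(-p^(1-6k)) = t^(-p^p)`; `v² = w'²κ^(-6k) = κ^(1-6k) = κ^p`.
Case `6k-1 = p` (`k > 0`): `a = a₀⁻¹, b = b₀⁻¹, l = κ`: `v = aba = (a₀b₀a₀)⁻¹ = κ^(3k) w'⁻¹`;
`v⁻¹tv = w' κ^(-3k) t κ^(3k) w'⁻¹ = w' t^(p^(6k)) w'⁻¹`; from `w'⁻¹tw' = t^(-p)`: `w' t^p w'⁻¹ = t⁻¹`, so
it is `(t⁻¹)^(p^(6k-1)) = t^(-p^p)`; `v² = κ^(6k) w'⁻² = κ^(6k-1) = κ^p`.  `S` for `a₀⁻¹`: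
`cj a₀⁻¹ t m = (a₀ · cj a₀ t 1)⁻¹ = a₀⁻¹ (cj a₀ t 1)⁻¹` since `a₀` and `cj a₀ t 1` commute.
Closure: `a' = a₀ κ^k`, `b' = b₀κ^k`. -/
def StPR : Prop :=
  ∀ (p : ℕ) (k : ℤ), 0 < p → (6 * k - 1).natAbs = p → ∀ (G : Type) [Group G] (a' b' t : G),
    Rel3 p k a' b' t → Subgroup.closure {a', b', t} = (⊤ : Subgroup G) →
    ∃ a b l : G, Rel p p a b t l ∧ Subgroup.closure {a, b, t, l} = (⊤ : Subgroup G)

/-! ### Systems over the field with `p^p` elements -/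

/-- general hypothesis for the universal systems -/
structure RF (L : Type) [CommRing L] (x : Lˣ) : Prop where
  fin : Finite L
  sq : IsUnit ((x : L) ^ 2 - 1)

/-- MODULE UN (155 lines).  Adapt `Pool/Agent/Helper48/GD/M_UN.lean` (proof in the docstring of
`GD.StUN`).  Differences: `x` has finite order because `L` is finite; `-1` is Weyl since
`om(-1) = om(1)⁻¹` (`Sys.om_neg`) and conjugation by `om(1)⁻¹` also maps `E(a)` to `F(-a)` and `F(b)` to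
`E(-b)`. -/
def StUN : Prop :=
  ∀ (L H : Type) [CommRing L] [Group H] (x : Lˣ) (s : Sys L H), RF L x → IsHat x s →
    s.Weyl (-1) ∧ (∀ u v, s.Weyl u → s.Weyl v → s.Weyl (u * v)) ∧ (∀ u, s.Weyl u → s.Weyl u⁻¹) ∧
    ∀ u, s.Weyl u → ∃ α : MulAut H, (∀ a, α (s.E a) = s.E ((u : L) * a)) ∧
      (∀ b, α (s.F b) = s.F (((u⁻¹ : Lˣ) : L) * b))

/-- MODULE WM (adapt `Pool/Agent/Helper21/GD/M_WM.lean`: only `hx1` and `h9` change, `x² - 1` and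
`x⁻² - 1 = -x⁻²(x²-1)` are units) and PERF (adapt `Pool/Agent/Helper30/GD/M_PF.lean`). -/
def StWM : Prop :=
  (∀ (L H : Type) [CommRing L] [Group H] (x : Lˣ) (s : Sys L H), RF L x →
    s.Weyl 1 → s.Weyl x → s.gp = ⊤ → commutator H = ⊤) ∧
  ∀ (L H : Type) [CommRing L] [Group H] (x : Lˣ) (s : Sys L H), RF L x →
    s.Weyl 1 → s.Weyl x → s.gp = ⊤ → commutator H = ⊤ → ∀ u : Lˣ,
    (∀ a, MulAut.conj (s.om u * s.E a * (s.om u)⁻¹) =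
      MulAut.conj (s.F (-(((u⁻¹ : Lˣ) : L) * ((u⁻¹ : Lˣ) : L) * a)))) →
    (∀ b, MulAut.conj (s.om u * s.F b * (s.om u)⁻¹) =
      MulAut.conj (s.E (-((u : L) * (u : L) * b)))) → s.Weyl u

/-- MODULE AU (80 lines, uses UN, WM, `GD.StCT`).  Adapt `Pool/Agent/Helper98/GD/M_AU.lean`. -/
def StAU : Prop :=
  ∀ (L H : Type) [CommRing L] [Group H] (x : Lˣ) (s : Sys L H), RF L x → IsHat x s →
    ∃ Q : Fr L (MulAut H), x ∈ Q.U ∧ (∀ a, Q.E a = MulAut.conj (s.E a)) ∧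
      (∀ b, Q.F b = MulAut.conj (s.F b))

/-- `L` is a field with `p^p` elements, `x^(p²) = x + 1`, `p ≥ 5` prime, `L = ℤ[x]`. -/
structure FF (p : ℕ) (L : Type) [CommRing L] (x : Lˣ) : Prop where
  pr : p.Prime
  five : 5 ≤ p
  char : (p : L) = 0
  card : Nat.card L = p ^ p
  unit : ∀ y : L, y ≠ 0 → IsUnit y
  frob : ∀ y : L, y ^ (p ^ p) = y
  as : (x : L) ^ (p ^ 2) = (x : L) + 1
  gn : Gn (x : L)

/-- MODULE FP (110 lines, uses `GD.StP1 StP2 StCMB`).  The integers `≢ 0 mod p` are in `U`.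
PROOF.  In characteristic `p`: `(x+i)^(p²) = x + 1 + i` (`i : ℕ`), so all `x + i` are powers of `x` and
belong to `U`.  Let `m` be an integer `≢ 0 mod p`, also the corresponding unit.
`σ_i = (x+im)/(x+(i+1)m)`, `σ_i - 1 = -m/(x+(i+1)m)`, so P1 with `u = m⁻¹`, `v = -1/(x+(i+1)m) ∈ U`:
`S m⁻¹ σ_i`.  Product over `i = 0..L-1` with `L m ≡ 1 mod p` (`S_mul`): `S m⁻¹ σ`, `σ = x/(x+1)`.
`1 - σ = 1/(x+1)`; P2 with `v = (x+1) m`: `S ((x+1)m) σ`, so `S m σ` (`S_smul_iff`).  `Gn σ`: a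
subgroup `N ∋ 1` stable under `σ` is stable under `1 - σ = (x+1)⁻¹`, so (finite order) under `x+1`, so
under `x`.  CMB with `u = m⁻¹`, `s = s' = σ`: `m⁻¹ ∈ U`. -/
def StFP : Prop :=
  ∀ (p : ℕ) (L A : Type) [CommRing L] [Group A] (x : Lˣ) (Q : Fr L A), FF p L x → x ∈ Q.U →
    ∀ m : ℤ, ¬ (p : ℤ) ∣ m → Q.In (m : L)

/-- MODULE R1 (80 lines, uses `GD.StP1 StP2 StCMB`).
PROOF.  `d = 1 - y` (unit `d`).  P1 with `u = d⁻¹`, `v = -1`: `S d⁻¹ y`.  STEP: `S u y → S (d^(p-1) u) y`: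
`S u (y^p)` (`S_pow`); `1 - y^p = (1-y)^p = d^p` (characteristic `p`), so P2 for `σ = y^p`:
`S (d^p u)⁻¹ (y^p)`; `y = (y^p)^(p^(p-1))` (`frob`), so `S (d^p u)⁻¹ y`; P2 for `y` (`1-y = d`):
`S (d (d^p u)⁻¹)⁻¹ y = S (d^(p-1) u) y`.  So `S (d^((p-1)j) d⁻¹) y` for all `j : ℕ`; P2:
`S (d · d^((p-1)j) d⁻¹)⁻¹ y = S (d^(-(p-1)j)) y`.  With `j = 1`: `S (d^(p-1))⁻¹ y`; with
`j = orderOf d - 1`: `S (d^(p-1)) y` (`Lˣ` is finite).  CMB with `u = d^(p-1)`, `s = s' = y`. -/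
def StR1 : Prop :=
  ∀ (p : ℕ) (L A : Type) [CommRing L] [Group A] (x : Lˣ) (Q : Fr L A), FF p L x →
    ∀ y d : Lˣ, y ∈ Q.U → Gn (y : L) → (d : L) = 1 - (y : L) → d ^ (p - 1) ∈ Q.U

/-- MODULE GY (70 lines, field theory).
PROOF.  `L` is a field with `p^p` elements (characteristic `p`), so of degree `p` over its prime field
`F_p = {y : y^p = y}`.  If `y^p ≠ y`, then `F_p(y)` is a subfield different from `F_p`; its degree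
divides the prime `p`, so `F_p(y) = L`; and `F_p(y) = F_p[y]` is the additive span of the powers of
`y`. -/
def StGY : Prop :=
  ∀ (p : ℕ) (L : Type) [CommRing L] (x : Lˣ), FF p L x → ∀ y : L,
    ((∃ m : ℤ, y = (m : L)) ∨ Gn y) ∧ (y ≠ 0 → ∃ m : ℤ, y ^ ((p ^ p - 1) / (p - 1)) = (m : L))

/-- MODULE FL (100 lines, uses FP, R1, GY).  FIELD LEMMA.
PROOF.  Claim: `y ∈ U`, `y ≠ 1` implies `1 - y ∈ U`.  If `y = m` is an integer: `1 - y` is a nonzero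
integer of `L`, so in `U` by FP.  Otherwise `Gn y` (GY) and `d = 1-y ≠ 0` is a unit with
`d^(p-1) ∈ U` (R1) and `d^(n₀) ∈ U`, `n₀ = (p^p-1)/(p-1)` (GY: it is a nonzero integer of `L`; FP).
`n₀ = 1 + p + … + p^(p-1) ≡ p ≡ 1 mod (p-1)`, so `gcd(n₀, p-1) = 1` and `d ∈ U`.
So `N = U ∪ {0}` is closed under addition (`a + b = a(1 - (-b/a))`, `-1 ∈ U`), contains `1` and is
stable under `x`; by `Gn x` it is `L`.  So every unit is in `U`. -/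
def StFL : Prop :=
  ∀ (p : ℕ) (L A : Type) [CommRing L] [Group A] (x : Lˣ) (Q : Fr L A), FF p L x → x ∈ Q.U →
    ∀ u : Lˣ, u ∈ Q.U

/-- MODULE IN (80 lines, uses FL, AU, WM, `GD.StHAT`, `GD.StCEL`).  Compare
`Pool/Agent/Helper57/GD/M_IN.lean`.
PROOF.  `RF L x`: `L` is finite (card), `x² - 1 = (x-1)(x+1) ≠ 0`: `x + 1 = x^(p²) ≠ 0`, and `x = 1` would
give `1 = 1^(p²) = 2`.  Universal `s : Sys L H` (HAT), `Q` (AU), all units are in `Q.U` (FL), `L` is local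
(a field) and `2` is a unit (`p` odd), so `Q.gp` is finite (CEL).  `Q.gp` is the range of
`conj : H → MulAut H` (as `s.gp = ⊤`), whose kernel is the centre; `H` is perfect (WM), so `H` is finite
by Schur (`Pool.Agent.Helper60.DZ2.Red_schur`), and every `s'.gp` is contained in the image of `H`. -/
def StIN : Prop :=
  ∀ (p : ℕ) (L : Type) [CommRing L] (x : Lˣ), FF p L x → FinP L x

/-- MODULE LB (130 lines, ring theory).  The ring `L ⧸ K₀` is trivial or satisfies `FF`.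
PROOF.  `p = 2h+1`.  Characteristic `p`: `(x+i)^(p²) = x+i+1`, so `x^(p^(2h)) = x + h`, and
`x = x^(p^p) = (x+h)^p = x^p + h`, i.e. `x^p = x - h`.  So `x` is a root of the monic polynomial
`X^p - X + h` with `h ≢ 0 mod p`, and `L` is spanned over `ℤ/p` by `1, x, …, x^(p-1)` (`Gn x`), so `L` is
finite with at most `p^p` elements.  Let `𝔪` be a maximal ideal (`L ≠ 0`), `k = L ⧸ 𝔪` a field of
characteristic `p` generated by the image `ξ` of `x`; `ξ^(p^i) = ξ - i h`, so `ξ^(p^i) = ξ` only if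
`p ∣ i`; `k` has `p^d` elements with `ξ^(p^d) = ξ`, so `p ∣ d`, `d ≥ p`, `|k| ≥ p^p ≥ |L|`.  So
`L → k` is bijective: `L` is a field with `p^p` elements, `y^(p^p) = y`. -/
def StLB : Prop :=
  ∀ (p : ℕ), p.Prime → 5 ≤ p → ∀ (L : Type) [CommRing L] (x : Lˣ), (p : L) = 0 →
    (x : L) ^ (p ^ 2) = (x : L) + 1 → (x : L) ^ (p ^ p) = (x : L) → Gn (x : L) →
    Subsingleton L ∨ FF p L x

/-! ### Target -/

/-- MODULE AR (70 lines).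
PROOF.  `K = GaloisField p p`, `p^p` elements.  The additive map `y ↦ y^p - y` on `K` has kernel of
order `p` (the roots of `X^p - X`), so its image has `p^(p-1)` elements and is contained in the kernel
of the trace `Tr y = y + y^p + … + y^(p^(p-1))`, which has at most `p^(p-1)` elements (degree of
the polynomial); so the image is the kernel of `Tr`, and it contains every `c` with `c^p = c`
(`Tr c = p c = 0`).  With `c = 1/2`: `y^p = y + c`, `y^(p²) = y + 2c = y + 1`. -/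
def StAR : Prop :=
  ∀ (p : ℕ) [Fact p.Prime], p ≠ 2 → ∃ x : GaloisField p p, x ^ (p ^ 2) = x + 1 ∧ x ^ p ≠ x

/-- MODULE TG (200 lines, uses AR).  Compare `Pool/Agent/Helper72/DZ2/M_Target.lean` and
`Pool/Agent/Helper11/GD/M_TG.lean`.
PROOF.  `K = GaloisField p p`, `S = SL(2,K)`, `T = MulAut S`.  `c : S → T` conjugation, with kernel the
centre of `S`, so `c(S) ≅ PSL(2,K)`, normal in `T` (`φ c(g) φ⁻¹ = c(φ g)`).  `Fr ∈ T` Frobenius on the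
entries, `Fr^p = 1`.  `E(y) = [1 y; 0 1]`, `F(y) = [1 0; y 1]`, `w₀ = E(1)F(-1)E(1) = [0 1; -1 0]`,
`(E(1)F(-1))³ = ±1`.  `τ ∈ T`: conjugation by a diagonal matrix of `GL(2,K)` such that
`τ⁻¹(E(y)) = E(xy)`, `τ⁻¹(F(y)) = F(x⁻¹y)` (`[α β; γ δ] ↦ [α x⁻¹β; xγ δ]` for `τ`); `x ≠ 0`.
`p ≠ 3`: choose `α : ℤ` with `3α ≡ 1 mod p`, `Φ = Fr^(-α)`; `a' = c(E(1)) Φ`, `b' = c(F(-1)) Φ`,
`t = τ`.  `Φ` commutes with `c(E(1)), c(F(-1)), c(w₀)`.  `a'b'a' = c(w₀)Φ³ = b'a'b'`;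
`κ = (a'b')³ = Φ⁶`.  `Φ³ = Fr⁻¹` (as `Fr^p = 1`), `c(w₀)⁻¹ τ c(w₀) = τ⁻¹`, `Fr τ Fr⁻¹ = τ^p`:
`(a'b'a')⁻¹ t (a'b'a') = Φ⁻³ τ⁻¹ Φ³ = Fr τ⁻¹ Fr⁻¹ = τ^(-p)`.  `a' κ^(-k) = c(E(1)) Φ^(1-6k) = c(E(1))`,
since `p ∣ 6k-1`.  `t⁻ⁱ c(E(1)) tⁱ = c(τ⁻ⁱ(E(1))) = c(E(xⁱ))`, and `x^(p²) = x+1`.
Let `f : G → T`, `G` generated by `ga, gb, gt ↦ a', b', t`.  The range contains `κ = Φ⁶`, hence
`Φ` (odd order `p` prime to 6), `c(E(1))`, `c(F(-1))`, `c(w₀)`, `c(E(xⁱ))`, hence `c(E(y))` for all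
`y ∈ K` (the additive span of the `xⁱ`, `i ≥ 0`, is the subfield `F_p(x) = K`, as `[K:F_p] = p` is prime
and `x^p ≠ x`), hence `c(S)` (transvections generate).  `Lc = f⁻¹(c(S))` is normal and maps onto
`c(S) ≅ PSL(2,K)`. -/
def StTG : Prop :=
  ∀ (p : ℕ) (k : ℤ), ∀ _ : Fact p.Prime, 5 ≤ p → (6 * k - 1).natAbs = p →
    ∃ (T : Type) (_ : Group T) (a' b' t : T), Rel3 p k a' b' t ∧
      ∀ (G : Type) [Group G] (f : G →* T) (ga gb gt : G), f ga = a' → f gb = b' → f gt = t →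
        Subgroup.closure {ga, gb, gt} = (⊤ : Subgroup G) →
        ∃ Lc : Subgroup G, Lc.Normal ∧
          ∃ f' : Lc →* Matrix.ProjectiveSpecialLinearGroup (Fin 2) (GaloisField p p),
            Function.Surjective f'

/-- (own module) finiteness -/
def StFin : Prop :=
  ∀ (p : ℕ) (k : ℤ), p.Prime → 5 ≤ p → (6 * k - 1).natAbs = p → ∀ (G : Type) [Group G]
    (a' b' t : G), Rel3 p k a' b' t → Subgroup.closure {a', b', t} = (⊤ : Subgroup G) → Finite G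

end Pool.Agent.Helper43.AX
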